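import Pool.Agent.Helper71.SD.Goals

/-!
Packets HL2 and HL3 of the disproof of `MP_dcced1_gt` (helper71).
-/

namespace Pool.Agent.Helper71.SD.HL23

open Pool.Agent.Helper71.AHtpy SimpleGraph

/-- one more element of the block `a` -/
theorem add_elem (h1 : S_XC1) (S : Finset E) (a : Fin 3) (hS : ∀ b, cnt b S ≤ 5)
    (ha : cnt a S < 5) : ∃ e, e ∉ S ∧ blk e = a ∧ cnt a (tog e S) = cnt a S + 1 ∧
      (∀ b, b ≠ a → cnt b (tog e S) = cnt b S) ∧ S ⊆ tog e S ∧ (∀ b, cnt b (tog e S) ≤ 5) := by
  obtain ⟨-, -, h3, -, h5, -⟩ := h1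
  obtain ⟨U, hU, hd, hb⟩ := h5 a S 1 (by omega)
  obtain ⟨e, rfl⟩ := Finset.card_eq_one.mp hU
  have heS : e ∉ S := by
    intro h
    exact Finset.disjoint_left.mp hd (Finset.mem_singleton_self e) h
  have hea : blk e = a := hb e (Finset.mem_singleton_self e)
  have e1 : cnt a (tog e S) = cnt a S + 1 := (h3 a e S).2.2 hea heS
  have e2 : ∀ b, b ≠ a → cnt b (tog e S) = cnt b S := fun b hb =>
    (h3 b e S).1 (by rw [hea]; exact hb.symm)
  refine ⟨e, heS, hea, e1, e2, ?_, ?_⟩
  · intro i hi
    rw [mem_tog]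
    exact Or.inl ⟨hi, fun h => heS (h ▸ hi)⟩
  · intro b
    by_cases hb : b = a
    · subst hb; omega
    · rw [e2 b hb]; exact hS b

theorem near_lev {V : Type} {G : SimpleGraph V} {n : ℕ} {p q : Quotient (suspSetoid V n)}
    (h : Near (Susp G n) p q) : R G n (lab p) (lev p) (lab q) (lev q) := by
  rw [← near_pt_iff (lev_le p) (lev_le q), pt_lab_lev, pt_lab_lev]
  exact h

theorem hl2 : S_XC1 → S_HL2 := by
  intro h1 V G eta F n j θ h S hS a
  obtain ⟨m, hm⟩ : ∃ m, m = 5 - cnt a S := ⟨_, rfl⟩
  induction m generalizing S with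
  | zero =>
    have h5 : cnt a S = 5 := by have := hS a; omega
    obtain ⟨v, hv, -, -⟩ := h.forced S hS ⟨a, h5⟩
    have := h.hj'
    rw [hv, lev_pt]
    omega
  | succ m ih =>
    obtain ⟨e, -, -, e1, -, -, e3⟩ := add_elem h1 S a hS (by omega)
    have h4 := ih (tog e S) e3 (by omega)
    have h6 := (near_lev (h.gm S (tog e S) ⟨e, rfl⟩)).1
    omega

theorem hl3 : S_XC1 → S_HL3 := by
  intro h1 V G eta F n j θ h S hS a
  obtain ⟨m, hm⟩ : ∃ m, m = 5 - cnt a S := ⟨_, rfl⟩
  induction m generalizing S with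
  | zero =>
    intro _
    have h5 : cnt a S = 5 := by have := hS a; omega
    obtain ⟨v, hv, h0, hF⟩ := h.forced S hS ⟨a, h5⟩
    have h7 := h.hj'
    have h8 := h.hj
    have hl : lab (θ S) = v := lab_eq hv (by omega) (by omega)
    have hlev : lev (θ S) = j := by rw [hv, lev_pt]; omega
    rw [hl, hlev, h0]
    refine ⟨by omega, ?_⟩
    have hz : ∑ b, |F v b - (if b = a then 3 else min 3 (cnt b S : ℤ))| = 0 := by
      apply Finset.sum_eq_zero
      intro b _
      rw [hF b]
      by_cases hb : b = a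
      · subst hb
        rw [if_pos rfl, h5]; norm_num
      · rw [if_neg hb]; simp
    rw [hz, h5]
    simp
  | succ m ih =>
    intro hsup
    obtain ⟨e, heS, hea, e1, e2, esub, e3⟩ := add_elem h1 S a hS (by omega)
    have hS0 := hsup S (Finset.Subset.refl _) (fun i hi hi' => absurd hi hi') (hS a)
    have hS1 := hsup (tog e S) esub (by
      intro i hi hi'
      rw [mem_tog] at hi
      rcases hi with hi | hi
      · exact absurd hi.1 hi'
      · rw [hi.1]; exact hea) (e3 a)
    have h4 := ih (tog e S) e3 (by omega) (by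
      intro S' hS' hS'' hc
      refine hsup S' (esub.trans hS') ?_ hc
      intro i hi hi'
      by_cases hie : i = e
      · rw [hie]; exact hea
      · refine hS'' i hi ?_
        rw [mem_tog]
        rintro (h | h)
        · exact hi' h.1
        · exact hie h.1)
    obtain ⟨h4a, h4b⟩ := h4
    have hR := near_lev (h.gm S (tog e S) ⟨e, rfl⟩)
    obtain ⟨hR1, hR2⟩ := hR
    -- the four quantities
    set p := θ S
    set q := θ (tog e S)
    have hcase : (lab p = lab q) ∨ (lev p = lev q ∧ G.Adj (lab p) (lab q)) := by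
      rcases hR2 with h | h | h | h | h | h
      · omega
      · omega
      · omega
      · omega
      · exact Or.inl h
      · exact Or.inr h
    have hsum : ∑ b, |F (lab q) b - (if b = a then 3 else min 3 (cnt b (tog e S) : ℤ))| =
        ∑ b, |F (lab q) b - (if b = a then 3 else min 3 (cnt b S : ℤ))| := by
      apply Finset.sum_congr rfl
      intro b _
      by_cases hb : b = a
      · rw [if_pos hb, if_pos hb]
      · rw [if_neg hb, if_neg hb, e2 b hb]
    rw [hsum] at h4b
    have hc5 : cnt a S < 5 := by omega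
    rcases hcase with hc | ⟨hc, hadj⟩
    · rw [hc]
      refine ⟨by omega, ?_⟩
      have : |(lev p : ℤ) - j| ≤ |(lev q : ℤ) - j| + 1 := by
        have h5 : (lev p : ℤ) ≤ lev q + 1 := by exact_mod_cast hR1.1
        have h6 : (lev q : ℤ) ≤ lev p + 1 := by exact_mod_cast hR1.2
        have h7 := abs_le.mp (le_refl |(lev q : ℤ) - j|)
        rw [abs_le]
        constructor <;> linarith
      have he1 : (cnt a (tog e S) : ℤ) = cnt a S + 1 := by exact_mod_cast e1
      linarith
    · have heta : eta (lab p) ≤ eta (lab q) + 1 := h.rk.eta_lip _ _ hadj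
      have hq7 : eta (lab q) < 7 := by omega
      have hp7 : eta (lab p) < 7 := by omega
      refine ⟨by omega, ?_⟩
      have hF := h.rk.F_lip _ _ hadj hp7 hq7
      have htri : ∑ b, |F (lab p) b - (if b = a then 3 else min 3 (cnt b S : ℤ))| ≤
          ∑ b, |F (lab p) b - F (lab q) b| +
            ∑ b, |F (lab q) b - (if b = a then 3 else min 3 (cnt b S : ℤ))| := by
        rw [← Finset.sum_add_distrib]
        apply Finset.sum_le_sum
        intro b _
        exact abs_sub_le _ _ _
      have he1 : (cnt a (tog e S) : ℤ) = cnt a S + 1 := by exact_mod_cast e1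
      rw [hc]
      linarith

end Pool.Agent.Helper71.SD.HL23
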