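import Pool.Agent.Helper71.SD.Goals

/-!
Packets REV and HLR of the disproof of `MP_dcced1_gt` (helper71): the upside-down map of the
suspension and the versions of the hole lemmas for the other pole.
-/

namespace Pool.Agent.Helper71.SD.HLR

open Pool.Agent.Helper71.AHtpy SimpleGraph

/-- the upside-down map -/
def revM (V : Type) (n : ℕ) : Quotient (suspSetoid V n) → Quotient (suspSetoid V n) :=
  Quotient.map (fun a => (a.1, ⟨n - a.2.val, by omega⟩)) (by
    rintro a b (h | h | h)
    · rw [h]
    · refine Or.inr (Or.inr ⟨?_, ?_⟩)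
      · ext; simp [h.1]
      · ext; simp [h.2]
    · refine Or.inr (Or.inl ⟨?_, ?_⟩)
      · ext; simp [h.1]
      · ext; simp [h.2])

theorem revM_pt {V : Type} {n : ℕ} (x : V) {l : ℕ} (hl : l ≤ n) :
    revM V n (pt n x l) = pt n x (n - l) := by
  unfold revM pt
  rw [Quotient.map_mk]
  congr 1
  ext
  · rfl
  · simp only; omega

theorem rev : S_REV := by
  intro V G n
  refine ⟨revM V n, fun x l hl => revM_pt x hl, ?_, ?_⟩
  · intro a b hab
    obtain ⟨x, l, hl, rfl⟩ := exists_pt a
    obtain ⟨y, m, hm, rfl⟩ := exists_pt b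
    have h := (near_pt_iff hl hm).mp (Or.inr hab)
    rw [revM_pt x hl, revM_pt y hm, near_pt_iff (by omega) (by omega)]
    obtain ⟨h1, h2⟩ := h
    refine ⟨by omega, ?_⟩
    rcases h2 with h | h | h | h | h | h
    · right; right; left; omega
    · right; right; right; left; omega
    · left; omega
    · right; left; omega
    · right; right; right; right; left; exact h
    · right; right; right; right; right; exact ⟨by omega, h.2⟩
  · intro q
    obtain ⟨x, l, hl, rfl⟩ := exists_pt q
    rw [revM_pt x hl, lev_pt, lev_pt]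
    omega

theorem hole_rev (hr : S_REV) {V : Type} {G : SimpleGraph V} {eta : V → ℕ} {F : V → Fin 3 → ℤ}
    {n j : ℕ} {θ : Finset E → Quotient (suspSetoid V n)} (h : Hole G eta F n j θ) :
    ∃ θ' : Finset E → Quotient (suspSetoid V n), Hole G eta F n (n - j) θ' ∧
      ∀ S, lev (θ' S) = n - lev (θ S) := by
  obtain ⟨rev, h1, h2, h3⟩ := hr V G n
  refine ⟨fun S => rev (θ S), ?_, fun S => h3 _⟩
  have hj := h.hj
  have hj' := h.hj'
  refine ⟨h.rk, ?_, ?_, h.hn, by omega, by omega⟩
  · intro S T hST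
    exact h2.near (h.gm S T hST)
  · intro S hS hS'
    obtain ⟨v, hv, h0, hF⟩ := h.forced S hS hS'
    refine ⟨v, ?_, h0, hF⟩
    show rev (θ S) = _
    rw [hv, h1 v j (by omega)]

theorem hlr : S_REV → S_HL5 → S_HL7 → S_HLR := by
  intro hr h5 h7
  refine ⟨?_, ?_⟩
  · intro V G eta F n j θ h hj S hS hlev
    obtain ⟨θ', h', hl⟩ := hole_rev hr h
    refine h5 V G eta F n (n - j) θ' h' (by omega) S hS ?_
    rw [hl, hlev]; omega
  · intro V G eta F θ h z hz hlev S hS
    obtain ⟨θ', h', hl⟩ := hole_rev hr h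
    have h3 : (6 - 3 : ℕ) = 3 := rfl
    rw [h3] at h'
    have := h7 V G eta F θ' h' z hz (by rw [hl, hlev]) S hS
    rw [hl] at this
    have hle := lev_le (θ S)
    omega

end Pool.Agent.Helper71.SD.HLR
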