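import Pool.Agent.Helper71.SD.Goals

/-!
Packets L1UP and HOLE of the disproof of `MP_dcced1_gt` (helper71).
-/

namespace Pool.Agent.Helper71.SD.HOLE

open Pool.Agent.Helper71.AHtpy SimpleGraph

theorem compl_map (h1 : S_XC1) {V : Type} {G : SimpleGraph V} {n : ℕ}
    {σ : Finset E → Quotient (suspSetoid V n)} (hσ : IsGraphMap (cube E) (Susp G n) σ) :
    IsGraphMap (cube E) (Susp G n) (fun S => σ Sᶜ) := by
  rintro S T ⟨a, rfl⟩
  show Near _ (σ Sᶜ) (σ (tog a S)ᶜ)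
  rw [h1.2.2.2.2.2.1 a S]
  exact hσ _ _ ⟨a, rfl⟩

theorem l1up : S_L1 → S_DUAL → S_XC1 → S_L1UP := by
  intro hL hD h1 V G A n j σ hσ hj hj' hB S hS hS'
  by_cases hc : S.card ≤ 30
  · exact hL V G A n j σ hσ hj hj' hB S hc hS
  · obtain ⟨B, hb, hb', -, -, -⟩ := hD V G A
    have hcc : ∀ T : Finset E, T.card + Tᶜ.card = 60 := by
      intro T
      have := Finset.card_add_card_compl T
      simpa using this
    have hB' : Based B n j (fun T => σ Tᶜ) := by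
      intro T hT
      have h2 := hB Tᶜ (by have := hcc T; omega)
      show σ Tᶜ = _
      rw [h2, hb]
    have h3 := hL V G B n j (fun T => σ Tᶜ) (compl_map h1 hσ) hj hj' hB' Sᶜ
      (by have := hcc S; omega) hS'
    simp only [compl_compl] at h3
    rw [h3, hb', compl_compl]

theorem hole : S_L1UP → S_XC1 → S_XC2 → S_HOLE := by
  intro hL h1 h2 V G A n j σ hσ hn hj hj' hB
  have hbig : ∀ S : Finset E, (∀ a, cnt a S ≤ 5) → ∃ a, 5 ≤ cnt a Sᶜ := fun S hS =>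
    ⟨0, by have := (h1.1 0 S).2; have := hS 0; omega⟩
  have hNP : ∀ S : Finset E, (∀ a, cnt a S ≤ 5) → (∃ a, cnt a S = 5) → NP S := by
    intro S hS ⟨a, ha⟩
    rw [h2.1]
    exact ⟨⟨a, by omega⟩, ⟨0, by have := (h1.1 0 S).2; have := hS 0; omega⟩⟩
  have hNP' : ∀ S : Finset E, (∀ a, cnt a S ≤ 5) → (∃ a, cnt a S = 5) → NP Sᶜ := by
    intro S hS hS'
    have := hNP S hS hS'
    rw [h2.1] at this ⊢
    rw [compl_compl]
    exact ⟨this.2, this.1⟩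
  refine ⟨⟨⟨A.eta_lip, A.F_lip, A.F_top⟩, hσ, ?_, hn, hj, hj'⟩,
    ⟨⟨A.eta_lip, A.F'_lip, A.F'_top⟩, compl_map h1 hσ, ?_, hn, hj, hj'⟩⟩
  · intro S hS hS'
    refine ⟨A.b (xc S), hL V G A n j σ hσ hj hj' hB S ?_ (hbig S hS), A.eta_b _,
      A.F_b S (hNP S hS hS')⟩
    obtain ⟨a, ha⟩ := hS'
    exact ⟨a, by omega⟩
  · intro S hS hS'
    refine ⟨A.b (xc Sᶜ), hL V G A n j σ hσ hj hj' hB Sᶜ (hbig S hS) ?_, A.eta_b _, ?_⟩
    · obtain ⟨a, ha⟩ := hS'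
      exact ⟨a, by rw [compl_compl]; omega⟩
    · intro a
      rw [A.F'_b Sᶜ (hNP' S hS hS') a, compl_compl]

end Pool.Agent.Helper71.SD.HOLE
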