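import Pool.Agent.Helper71.SD.Goals

/-!
Packet SYM of the disproof of `MP_dcced1_gt` (helper71).
-/

namespace Pool.Agent.Helper71.SD.SYM

open Pool.Agent.Helper71.AHtpy SimpleGraph

theorem aff_aff {κ ι : Type} [DecidableEq ι] (ρ : Equiv.Perm ι) (w : Finset ι) (π : κ ↪ ι)
    (w' : Finset ι) (S : Finset κ) :
    aff ρ.toEmbedding w (aff π w' S) =
      aff (π.trans ρ.toEmbedding) (symmDiff w (w'.map ρ.toEmbedding)) S := by
  ext x
  obtain ⟨y, rfl⟩ := ρ.surjective x
  have h1 : ∀ T : Finset ι, ρ y ∈ T.map ρ.toEmbedding ↔ y ∈ T := fun T =>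
    Finset.mem_map' ρ.toEmbedding
  unfold aff
  rw [← Finset.map_map]
  simp only [Finset.mem_symmDiff, h1]
  tauto

theorem sym : S_SYM := by
  intro V G A τ ρ w i e
  constructor
  · rintro ⟨π, w', h1, h2, h3⟩
    refine ⟨π.trans ρ.toEmbedding, symmDiff w (w'.map ρ.toEmbedding), ?_, ?_, ?_⟩
    · intro j hj
      exact h1 j (ρ.injective hj)
    · have h4 : ρ i ∈ w'.map ρ.toEmbedding ↔ i ∈ w' := Finset.mem_map' ρ.toEmbedding
      have h5 : ρ i ∈ symmDiff w (w'.map ρ.toEmbedding) ↔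
          (ρ i ∈ w ∧ i ∉ w') ∨ (i ∈ w' ∧ ρ i ∉ w) := by
        rw [Finset.mem_symmDiff, h4]
      rw [← h2, show decide (ρ i ∈ symmDiff w (w'.map ρ.toEmbedding)) =
        decide ((ρ i ∈ w ∧ i ∉ w') ∨ (i ∈ w' ∧ ρ i ∉ w)) from decide_eq_decide.mpr h5]
      by_cases ha : i ∈ w' <;> by_cases hb : ρ i ∈ w <;> simp [ha, hb]
    · have : (fun S => τ (aff (π.trans ρ.toEmbedding) (symmDiff w (w'.map ρ.toEmbedding)) S)) =
          fun S => (fun W => τ (aff ρ.toEmbedding w W)) (aff π w' S) := by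
        funext S
        show _ = τ (aff ρ.toEmbedding w (aff π w' S))
        rw [aff_aff]
      rw [this]
      exact h3
  · rintro ⟨π, w', h1, h2, h3⟩
    refine ⟨π.trans ρ.symm.toEmbedding, (symmDiff w w').map ρ.symm.toEmbedding, ?_, ?_, ?_⟩
    · intro j hj
      apply h1 j
      rw [← hj]
      simp
    · have h4 : i ∈ (symmDiff w w').map ρ.symm.toEmbedding ↔ ρ i ∈ symmDiff w w' := by
        have := Finset.mem_map' (s := symmDiff w w') (a := ρ i) ρ.symm.toEmbedding
        rw [← this]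
        simp
      have h5 : i ∈ (symmDiff w w').map ρ.symm.toEmbedding ↔
          (ρ i ∈ w ∧ ρ i ∉ w') ∨ (ρ i ∈ w' ∧ ρ i ∉ w) := by
        rw [h4, Finset.mem_symmDiff]
      have h6 : e = xor (decide (ρ i ∈ w')) (decide (ρ i ∈ w)) := by
        rw [h2]; cases e <;> cases decide (ρ i ∈ w) <;> rfl
      rw [h6, show decide (i ∈ (symmDiff w w').map ρ.symm.toEmbedding) =
        decide ((ρ i ∈ w ∧ ρ i ∉ w') ∨ (ρ i ∈ w' ∧ ρ i ∉ w)) from decide_eq_decide.mpr h5]
      by_cases ha : ρ i ∈ w' <;> by_cases hb : ρ i ∈ w <;> simp [ha, hb]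
    · have : (fun S => (fun W => τ (aff ρ.toEmbedding w W))
          (aff (π.trans ρ.symm.toEmbedding) ((symmDiff w w').map ρ.symm.toEmbedding) S)) =
          fun S => τ (aff π w' S) := by
        funext S
        show τ (aff ρ.toEmbedding w _) = _
        rw [aff_aff]
        congr 1
        have e1 : (π.trans ρ.symm.toEmbedding).trans ρ.toEmbedding = π := by
          ext j
          simp
        have e2 : ((symmDiff w w').map ρ.symm.toEmbedding).map ρ.toEmbedding = symmDiff w w' := by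
          ext x
          simp
        rw [e1, e2, ← symmDiff_assoc, symmDiff_self, bot_symmDiff]
      rw [this]
      exact h3

end Pool.Agent.Helper71.SD.SYM
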